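import Pool.Agent.Q283.EN.Stm

/-!
# Project EN (helper283), JOB LAWX: assembly of the law
-/

set_option autoImplicit false

namespace Pool.Agent.Q150.EN

open NumberField IsDedekindDomain Filter Topology Finset
open Pool.Agent.Q283.LQ (Sm Box Nest nS)
open Pool.Agent.Q7.LK Pool.Agent.Q283.EN

theorem nest_mono : ∀ (k : ℕ) (P Q : (Fin k → ℕ) → Prop), (∀ X, P X → Q X) → Nest k P → Nest k Q
  | 0, _, _, h, hP => h _ hP
  | k + 1, P, Q, h, hP => nest_mono k _ _ (fun X hX => by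
      filter_upwards [hX] with x hx using h _ hx) hP

theorem fn {α : Type} [Fintype α] (p : α → Prop) [DecidablePred p] :
    (univ.filter p).card = {a | p a}.ncard := by
  rw [← Set.ncard_coe_finset]
  apply congrArg
  ext a
  simp

/-- a real inequality -/
theorem ineq1 {K T N U a e e' e'' : ℝ} (hT : 0 < T) (hN : 0 < N) (h1 : |K * T - U * N| ≤ e'' * N * T)
    (h2 : |U - a * T| ≤ e' * T) (he : e' + e'' ≤ e) : |K - a * N| ≤ e * N := by
  have h3 : |K - a * N| * T ≤ (e * N) * T := by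
    have h4 : |K - a * N| * T = |(K * T - U * N) + (U - a * T) * N| := by
      rw [← abs_of_pos hT, ← abs_mul, abs_of_pos hT]
      congr 1
      ring
    rw [h4]
    refine (abs_add_le _ _).trans ?_
    rw [abs_mul, abs_of_pos hN]
    have h5 : |U - a * T| * N ≤ e' * T * N := mul_le_mul_of_nonneg_right h2 hN.le
    have h6 : (e' + e'') * (N * T) ≤ e * (N * T) := mul_le_mul_of_nonneg_right he (by positivity)
    linarith
  exact le_of_mul_le_mul_right h3 hT

theorem ineq2 {K T N U e e' e'' : ℝ} (hT : 0 < T) (hN : 0 < N) (h1 : |K * T - U * N| ≤ e'' * N * T)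
    (h2 : U ≤ e' * T) (he : e' + e'' ≤ e) : K ≤ e * N := by
  have h3 : K * T ≤ (e * N) * T := by
    have h4 := (abs_le.1 h1).2
    have h5 : U * N ≤ e' * T * N := mul_le_mul_of_nonneg_right h2 hN.le
    have h6 : (e' + e'') * (N * T) ≤ e * (N * T) := mul_le_mul_of_nonneg_right he (by positivity)
    linarith
  exact le_of_mul_le_mul_right h3 hT

open Classical in
theorem lawx (hFRM : S_FRM) (hEEX : S_EEX) (hSSX : S_SSX) (hSPN : S_SPN) (hTABL : S_TABL)
    (hTRF : S_TRF) : S_LAWX := by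
  intro p _ F _ _ ζ hζ hi hBASE hLOC t ht
  obtain ⟨y0, hy0⟩ := hBASE
  refine ⟨y0, fun y hy A c hA hc D0 hD0 hAD R ε hε => ?_⟩
  obtain ⟨f, u, r, π, g, hB, _⟩ := hy0 y hy
  have hfinS := (hLOC y hB.two).1
  obtain ⟨hAlt, hform⟩ := hFRM p F ζ hζ hi t ht y f u r π g hB hfinS
  obtain ⟨E, hE, hEA⟩ := hEEX p F ζ hζ hi hLOC t y f u r π g hB hform A c hA hc
  obtain ⟨⟨ψ, w⟩, hx0, _⟩ := hB.cls D0 hD0
  simp only at hx0
  have hψE : (ψ, w) ∈ E := (hEA D0 (ψ, w) hD0 hx0).2 hAD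
  have hp0 : 0 < p := (Fact.out : p.Prime).pos
  have hp1 : (1 : ℝ) ≤ (p : ℝ) := by exact_mod_cast hp0
  obtain ⟨k0, hk0⟩ := hTABL p f R (ε / 2) (by positivity)
  refine ⟨max k0 1, fun k hk z hz => ?_⟩
  have hk1 : 1 ≤ k := (le_max_right _ _).trans hk
  obtain ⟨hT1, hT2, hT3⟩ := hk0 k ((le_max_left _ _).trans hk) g w ψ z E hAlt hE hψE hz
  obtain ⟨M, hM⟩ : ∃ M : ℕ, M = Nat.card ((Fin f → ZMod p) × (Fin k → ZMod p)) := ⟨_, rfl⟩
  obtain ⟨e2, he2⟩ : ∃ e2 : ℝ, e2 = ε / 2 / ((M : ℝ) + 1) ^ 2 := ⟨_, rfl⟩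
  have he2pos : 0 < e2 := by rw [he2]; positivity
  have he2M : e2 * ((M : ℝ) + 1) ^ 2 = ε / 2 := by rw [he2]; field_simp
  have he2le : e2 ≤ ε / 2 := by
    rw [he2]
    apply div_le_self (by positivity)
    apply one_le_pow₀
    have : (0 : ℝ) ≤ (M : ℝ) := Nat.cast_nonneg _
    linarith
  refine nest_mono k _ _ (fun X hX => ?_) (hTRF p F ζ hζ y f u r π g hB D0 ψ w hD0 hx0 k z hk1 hz e2 he2pos)
  obtain ⟨hfin, hpos, htab, hP⟩ := hX
  refine ⟨hfin, hpos, ?_, ?_, ?_⟩
  all_goals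
    obtain ⟨N, hN⟩ : ∃ N : ℝ, N = ({q ∈ (Box y X : Set (Fin k → HeightOneSpectrum (𝓞 F))) |
      ∃ D, Fits p y D0 z q D}.ncard : ℝ) := ⟨_, rfl⟩
    obtain ⟨T, hT⟩ : ∃ T : ℝ, T = ((univ.filter (fun τ : Tab p f k => ∑ j, z j • τ.1 j = ψ)).card : ℝ) :=
      ⟨_, rfl⟩
    rw [← hN] at hpos hP ⊢
    rw [← hT] at hT1 hT2 hT3 hP
    simp only [fn] at hT1 hT2 hP
  all_goals
    have hTpos : 0 < T := by
      rw [hT, Nat.cast_pos, Finset.card_pos]
      refine ⟨(fun j => if j = ⟨0, hk1⟩ then (z j)⁻¹ • ψ else 0, 0), ?_⟩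
      rw [mem_filter]
      refine ⟨mem_univ _, ?_⟩
      simp only
      rw [Finset.sum_eq_single (⟨0, hk1⟩ : Fin k)]
      · rw [if_pos rfl, smul_smul, mul_inv_cancel₀ (hz _), one_smul]
      · intro j _ hj
        rw [if_neg hj, smul_zero]
      · intro h
        exact absurd (mem_univ _) h
    have hcardT : ∀ q ∈ (Box y X : Set (Fin k → HeightOneSpectrum (𝓞 F))), ∀ τ : Tab p f k,
        Tb ζ u π τ q → ∀ D : F, Fits p y D0 z q D → ∀ N : ℕ,
        HasN p (CondX p y A D) N ↔ N = Nat.card (SolX g w z E τ) := by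
      intro q hq τ hτ D hD N
      exact hSSX p F ζ hζ y f u r π g hB A E hEA D0 ψ w hD0 hx0 k z q hz hq.1 (fun i => (hq.2 i).1)
        τ hτ D hD N
  · intro s hs
    have h1 := hP (fun τ => Nat.card (SolX g w z E τ) = p ^ (s + 1))
    have h2 := hT1 s hs
    have hset : {q ∈ (Box y X : Set (Fin k → HeightOneSpectrum (𝓞 F))) |
          ∃ D, Fits p y D0 z q D ∧ HasN p (CondX p y A D) (p ^ (s + 1))} =
        {q ∈ (Box y X : Set (Fin k → HeightOneSpectrum (𝓞 F))) | (∃ D, Fits p y D0 z q D) ∧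
            ∃ τ, Tb ζ u π τ q ∧ Nat.card (SolX g w z E τ) = p ^ (s + 1)} := by
      ext q
      constructor
      · rintro ⟨hq, D, hD, hN'⟩
        obtain ⟨τ, hτ⟩ := htab q hq
        exact ⟨hq, ⟨D, hD⟩, τ, hτ, ((hcardT q hq τ hτ D hD _).1 hN').symm⟩
      · rintro ⟨hq, ⟨D, hD⟩, τ, hτ, hN'⟩
        exact ⟨hq, D, hD, (hcardT q hq τ hτ D hD _).2 hN'.symm⟩
    rw [hset]
    exact ineq1 hTpos hpos h1 h2 (show ε / 2 + e2 ≤ ε by linarith)
  · have h1 := hP (fun τ : Tab p f k => Submodule.span (ZMod p) (Set.range τ.1) ≠ ⊤)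
    have hsub : {q ∈ (Box y X : Set (Fin k → HeightOneSpectrum (𝓞 F))) | (∃ D, Fits p y D0 z q D) ∧
          ¬ Spn p y q} ⊆
        {q ∈ (Box y X : Set (Fin k → HeightOneSpectrum (𝓞 F))) | (∃ D, Fits p y D0 z q D) ∧
            ∃ τ : Tab p f k, Tb ζ u π τ q ∧ Submodule.span (ZMod p) (Set.range τ.1) ≠ ⊤} := by
      rintro q ⟨hq, hD, hns⟩
      obtain ⟨τ, hτ⟩ := htab q hq
      refine ⟨hq, hD, τ, hτ, fun hsp => hns ?_⟩
      exact hSPN p F ζ hζ y f u r π g hB k q hq.1 (fun i => (hq.2 i).1) τ hτ hsp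
    have h3 := Set.ncard_le_ncard hsub (hfin.subset (fun q hq => hq.1))
    refine le_trans (Nat.cast_le.2 h3) ?_
    refine ineq2 hTpos hpos h1 ?_ (show ε / 2 + e2 ≤ ε by linarith)
    exact hT2
  · intro B Nq hBbox hBN
    have hval : ∀ q ∈ B, ∃ τ : Tab p f k, Tb ζ u π τ q ∧ Nat.card (SolX g w z E τ) = Nq q ∧
        ∃ D, Fits p y D0 z q D := by
      intro q hq
      obtain ⟨D, hD, hN'⟩ := hBN q hq
      obtain ⟨τ, hτ⟩ := htab q (hBbox q hq)
      exact ⟨τ, hτ, ((hcardT q (hBbox q hq) τ hτ D hD _).1 hN').symm, D, hD⟩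
    have hcM : ∀ τ : Tab p f k, Nat.card (SolX g w z E τ) ≤ M := by
      intro τ
      rw [hM]
      exact Nat.card_le_card_of_injective _ Subtype.val_injective
    have h1 : ∑ q ∈ B, (Nq q : ℝ) = ∑ m ∈ range (M + 1), (m : ℝ) * ((B.filter (fun q => Nq q = m)).card : ℝ) := by
      rw [← Finset.sum_fiberwise_of_maps_to (s := B) (t := range (M + 1)) (g := Nq)]
      · apply Finset.sum_congr rfl
        intro m _
        rw [Finset.sum_congr rfl (g := fun _ => (m : ℝ)) (fun q hq => by rw [(mem_filter.1 hq).2]),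
          sum_const, nsmul_eq_mul, mul_comm]
      · intro q hq
        obtain ⟨τ, _, h2, _⟩ := hval q hq
        rw [mem_range, ← h2]
        have := hcM τ
        omega
    have h2 : ∀ m : ℕ, ((B.filter (fun q => Nq q = m)).card : ℝ) * T ≤
        ({τ : Tab p f k | ∑ j, z j • τ.1 j = ψ ∧ Nat.card (SolX g w z E τ) = m}.ncard : ℝ) * N +
          e2 * N * T := by
      intro m
      have h3 := hP (fun τ => Nat.card (SolX g w z E τ) = m)
      have h4 : ((B.filter (fun q => Nq q = m)).card : ℝ) ≤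
          ({q ∈ (Box y X : Set (Fin k → HeightOneSpectrum (𝓞 F))) | (∃ D, Fits p y D0 z q D) ∧
            ∃ τ, Tb ζ u π τ q ∧ Nat.card (SolX g w z E τ) = m}.ncard : ℝ) := by
        rw [← Set.ncard_coe_finset]
        refine Nat.cast_le.2 (Set.ncard_le_ncard ?_ (hfin.subset (fun q hq => hq.1)))
        intro q hq
        rw [mem_coe, mem_filter] at hq
        obtain ⟨τ, h5, h6, h7⟩ := hval q hq.1
        exact ⟨hBbox q hq.1, h7, τ, h5, h6.trans hq.2⟩
      have h5 := (abs_le.1 h3).2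
      have h6 := mul_le_mul_of_nonneg_right h4 hTpos.le
      refine h6.trans ?_
      linarith
    have h3 : ∑ m ∈ range (M + 1), (m : ℝ) *
        ({τ : Tab p f k | ∑ j, z j • τ.1 j = ψ ∧ Nat.card (SolX g w z E τ) = m}.ncard : ℝ) =
        ∑ τ ∈ univ.filter (fun τ : Tab p f k => ∑ j, z j • τ.1 j = ψ), (Nat.card (SolX g w z E τ) : ℝ) := by
      rw [← Finset.sum_fiberwise_of_maps_to (s := univ.filter (fun τ : Tab p f k => ∑ j, z j • τ.1 j = ψ))
        (t := range (M + 1)) (g := fun τ => Nat.card (SolX g w z E τ))]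
      · apply Finset.sum_congr rfl
        intro m _
        rw [Finset.sum_congr rfl (g := fun _ => (m : ℝ)) (fun τ hτ => by rw [(mem_filter.1 hτ).2]),
          sum_const, nsmul_eq_mul, mul_comm, Finset.filter_filter, fn]
      · intro τ _
        rw [mem_range]
        have := hcM τ
        omega
    have h4 : (∑ m ∈ range (M + 1), (m : ℝ)) ≤ ((M : ℝ) + 1) ^ 2 := by
      have : ∑ m ∈ range (M + 1), (m : ℝ) ≤ ∑ m ∈ range (M + 1), ((M : ℝ) + 1) := by
        apply Finset.sum_le_sum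
        intro m hm
        have : (m : ℝ) ≤ (M : ℝ) := by
          have := mem_range.1 hm
          exact_mod_cast (by omega : m ≤ M)
        linarith
      refine this.trans (le_of_eq ?_)
      rw [sum_const, card_range, nsmul_eq_mul]
      push_cast
      ring
    have h5 : (∑ q ∈ B, (Nq q : ℝ)) * T ≤ ((2 + ε) * p * N) * T := by
      rw [h1, sum_mul]
      calc ∑ m ∈ range (M + 1), (m : ℝ) * ((B.filter (fun q => Nq q = m)).card : ℝ) * T
          ≤ ∑ m ∈ range (M + 1), ((m : ℝ) * ({τ : Tab p f k | ∑ j, z j • τ.1 j = ψ ∧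
            Nat.card (SolX g w z E τ) = m}.ncard : ℝ) * N + e2 * N * T * (m : ℝ)) := by
            apply Finset.sum_le_sum
            intro m _
            have := mul_le_mul_of_nonneg_left (h2 m) (Nat.cast_nonneg m : (0 : ℝ) ≤ (m : ℝ))
            linarith
        _ = (∑ τ ∈ univ.filter (fun τ : Tab p f k => ∑ j, z j • τ.1 j = ψ),
              (Nat.card (SolX g w z E τ) : ℝ)) * N + e2 * N * T * ∑ m ∈ range (M + 1), (m : ℝ) := by
            rw [sum_add_distrib, ← sum_mul, h3, ← mul_sum]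
        _ ≤ ((2 + ε / 2) * p * T) * N + e2 * N * T * ((M : ℝ) + 1) ^ 2 := by
            have h6 := mul_le_mul_of_nonneg_right hT3 hpos.le
            have h7 := mul_le_mul_of_nonneg_left h4 (by positivity : 0 ≤ e2 * N * T)
            linarith
        _ = ((2 + ε / 2) * p + ε / 2) * (N * T) := by
            have : e2 * N * T * ((M : ℝ) + 1) ^ 2 = (e2 * ((M : ℝ) + 1) ^ 2) * (N * T) := by ring
            rw [this, he2M]
            ring
        _ ≤ ((2 + ε) * p) * (N * T) := by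
            have : ε / 2 ≤ ε / 2 * p := by nlinarith
            apply mul_le_mul_of_nonneg_right _ (by positivity)
            nlinarith
        _ = ((2 + ε) * p * N) * T := by ring
    exact le_of_mul_le_mul_right h5 hTpos

end Pool.Agent.Q150.EN
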