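import Pool.Agent.Q283.EN.Stm2
import Pool.Agent.Q162.LK.HS2
import Pool.Agent.Q277.LK.Bas
import Pool.Agent.Q14.LK.Bas

/-!
# Project EN (helper283), JOB QSP: from squares to fourth powers
-/

set_option autoImplicit false

namespace Pool.Agent.Q150.EN

open NumberField IsDedekindDomain Finset WithZero
open Pool.Agent.Q283.LQ (Sm)
open Pool.Agent.Q7.LK
open Pool.Agent.Q283.EN
open Pool.Agent.Q277.LK (val_ne val_nat exp_neg_le_one val_eq_one vl_zero_iff)

section

variable {F : Type} [Field F] [NumberField F]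

theorem near_mul {v : HeightOneSpectrum (𝓞 F)} {a b : F} {ε : ℤᵐ⁰} (hε : ε ≤ 1)
    (ha : v.valuation F (a - 1) < ε) (hb : v.valuation F (b - 1) < ε) :
    v.valuation F (a * b - 1) < ε := by
  have e : a * b - 1 = (a - 1) * b + (b - 1) := by ring
  have h1 : v.valuation F b = 1 := val_eq_one v (hb.trans_le hε)
  rw [e]
  refine lt_of_le_of_lt (Valuation.map_add _ _ _) (max_lt ?_ hb)
  rw [map_mul, h1, mul_one]
  exact ha

theorem lpw_sq {v : HeightOneSpectrum (𝓞 F)} {t : F} (h : Lpw 2 v t) : Lpw 4 v (t ^ 2) := by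
  intro n
  obtain ⟨z, hz⟩ := h n
  refine ⟨z, ?_⟩
  have e : t ^ 2 * z ^ 4 = (t * z ^ 2) * (t * z ^ 2) := by ring
  rw [e]
  exact near_mul (exp_neg_le_one n) hz hz

theorem v16_le (v : HeightOneSpectrum (𝓞 F)) : v.valuation F ((2 : F) ^ 4) ≤ 1 := by
  have h := val_nat v (2 ^ 4)
  rwa [Nat.cast_pow, Nat.cast_ofNat] at h

theorem v2_le (v : HeightOneSpectrum (𝓞 F)) : v.valuation F (2 : F) ≤ 1 := by
  have h := val_nat v 2
  rwa [Nat.cast_ofNat] at h

theorem lpw4_near (hB : S_BAS) {v : HeightOneSpectrum (𝓞 F)} {a : F}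
    (h : v.valuation F (a - 1) < v.valuation F ((2 : F) ^ 4)) : Lpw 4 v a := by
  intro n
  have h20 : (2 : F) ≠ 0 := two_ne_zero
  have ha1 : v.valuation F a = 1 := val_eq_one v (h.trans_le (v16_le v))
  have h24 : v.valuation F ((2 : F) ^ 4) ≤ v.valuation F (((2 : ℕ) : F) ^ 2) := by
    rw [Nat.cast_ofNat, map_pow, map_pow]
    exact pow_le_pow_right_of_le_one' (v2_le v) (by norm_num)
  have h2 : Lpw 2 v a := (hB 2 F v).2.2.2.2.2.1 a 1 (by
    rw [one_pow, mul_one]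
    exact h.trans_le h24)
  obtain ⟨N0, hN0⟩ := Pool.Agent.Q162.LK.exp_lt_of_ne
    ((Valuation.ne_zero_iff (v.valuation F)).2 (pow_ne_zero 4 h20))
  obtain ⟨x, hx⟩ := h2 (max n N0)
  have hx16 : v.valuation F (a * x ^ 2 - 1) < v.valuation F ((2 : F) ^ 4) :=
    hx.trans (hN0 _ (le_max_right _ _))
  have hxn : v.valuation F (a * x ^ 2 - 1) < exp (-(n : ℤ)) := by
    refine hx.trans_le ?_
    rw [exp_le_exp]
    have := le_max_left n N0
    omega
  have hx2 : v.valuation F (x ^ 2 - 1) < v.valuation F ((2 : F) ^ 4) := by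
    have e : a * (x ^ 2 - 1) = (a * x ^ 2 - 1) - (a - 1) := by ring
    have h3 : v.valuation F (x ^ 2 - 1) = v.valuation F (a * (x ^ 2 - 1)) := by
      rw [map_mul, ha1, one_mul]
    rw [h3, e]
    exact lt_of_le_of_lt (Valuation.map_sub _ _ _) (max_lt hx16 h)
  have hx0 : x ≠ 0 := by
    rintro rfl
    rw [zero_pow two_ne_zero, mul_zero, zero_sub, Valuation.map_neg, map_one] at hx16
    exact absurd hx16 (not_lt.2 (v16_le v))
  -- one of `x`, `-x` is close to `1`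
  obtain ⟨w, hw, hw2⟩ : ∃ w : F, v.valuation F (w - 1) < v.valuation F (((2 : ℕ) : F) ^ 2) ∧ w ^ 2 = x ^ 2 := by
    by_contra hcon
    push Not at hcon
    have k1 : v.valuation F (((2 : ℕ) : F) ^ 2) ≤ v.valuation F (x - 1) := by
      by_contra hc
      exact hcon x (not_le.1 hc) rfl
    have k2 : v.valuation F (((2 : ℕ) : F) ^ 2) ≤ v.valuation F (x + 1) := by
      by_contra hc
      refine hcon (-x) ?_ (by ring)
      have e : -x - 1 = -(x + 1) := by ring
      rw [e, Valuation.map_neg]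
      exact not_le.1 hc
    have k3 := mul_le_mul' k1 k2
    rw [← map_mul, ← map_mul] at k3
    have e1 : ((2 : ℕ) : F) ^ 2 * ((2 : ℕ) : F) ^ 2 = (2 : F) ^ 4 := by
      rw [Nat.cast_ofNat]
      ring
    have e2 : (x - 1) * (x + 1) = x ^ 2 - 1 := by ring
    rw [e1, e2] at k3
    exact absurd hx2 (not_lt.2 k3)
  have hw0 : w ≠ 0 := by
    rintro rfl
    rw [zero_pow two_ne_zero] at hw2
    exact pow_ne_zero 2 hx0 hw2.symm
  have hwL : Lpw 2 v w := (hB 2 F v).2.2.2.2.2.1 w 1 (by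
    rw [one_pow, mul_one]
    exact hw)
  obtain ⟨z, hz⟩ := lpw_sq ((hB 2 F v).2.2.2.1 w hwL) n
  refine ⟨z, ?_⟩
  have e : a * z ^ 4 = (a * x ^ 2) * (w⁻¹ ^ 2 * z ^ 4) := by
    rw [← hw2]
    field_simp
  rw [e]
  exact near_mul (exp_neg_le_one n) hxn hz

theorem qsp (hBAS : S_BAS) : S_QSP := by
  classical
  intro F _ _ y hfin hpi k q hq hqS hSpn D0 D hD0 hF
  have hD := hF.ne
  have hDD : D / D0 ≠ 0 := div_ne_zero hD hD0
  have h20 : (2 : F) ≠ 0 := two_ne_zero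
  -- the number `g`
  have hx : ∀ v : HeightOneSpectrum (𝓞 F), ∃ x : F, Sm y v → x ≠ 0 ∧
      v.valuation F (D / D0 * x ^ 2 - 1) < v.valuation F ((2 : F) ^ 4) := by
    intro v
    by_cases hv : Sm y v
    · obtain ⟨N0, hN0⟩ := Pool.Agent.Q162.LK.exp_lt_of_ne
        ((Valuation.ne_zero_iff (v.valuation F)).2 (pow_ne_zero 4 h20))
      obtain ⟨x, hx⟩ := hF.loc v hv N0
      have h1 := hx.trans (hN0 N0 le_rfl)
      refine ⟨x, fun _ => ⟨?_, h1⟩⟩
      rintro rfl
      rw [zero_pow two_ne_zero, mul_zero, zero_sub, Valuation.map_neg, map_one] at h1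
      exact absurd h1 (not_lt.2 (v16_le v))
    · exact ⟨1, fun h => absurd h hv⟩
  choose x hx using hx
  have hN : ∀ v : HeightOneSpectrum (𝓞 F), ∃ N : ℕ, Sm y v → ∀ m : ℕ, N ≤ m →
      exp (-(m : ℤ)) < v.valuation F ((2 : F) ^ 4 * x v) := by
    intro v
    by_cases hv : Sm y v
    · obtain ⟨N0, hN0⟩ := Pool.Agent.Q162.LK.exp_lt_of_ne
        ((Valuation.ne_zero_iff (v.valuation F)).2 (mul_ne_zero (pow_ne_zero 4 h20) (hx v hv).1))
      exact ⟨N0, fun _ => hN0⟩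
    · exact ⟨0, fun h => absurd h hv⟩
  choose N hN using hN
  obtain ⟨g0, hg0⟩ := Pool.Agent.Q162.LK.apx hfin.toFinset x (hfin.toFinset.sup N)
  obtain ⟨g, hg, hgv⟩ : ∃ g : F, g ≠ 0 ∧ ∀ v : HeightOneSpectrum (𝓞 F), Sm y v →
      v.valuation F (D / D0 * g ^ 2 - 1) < v.valuation F ((2 : F) ^ 4) := by
    have h1 : ∀ v : HeightOneSpectrum (𝓞 F), Sm y v →
        v.valuation F (g0 / x v - 1) < v.valuation F ((2 : F) ^ 4) := by
      intro v hv
      have hvm : v ∈ hfin.toFinset := hfin.mem_toFinset.2 hv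
      have h2 := (hg0 v hvm).trans_lt (hN v hv _ (Finset.le_sup hvm))
      have hx0 := (hx v hv).1
      have e : g0 - x v = (g0 / x v - 1) * x v := by field_simp
      rw [e, map_mul, map_mul] at h2
      exact lt_of_mul_lt_mul_right h2 zero_le
    by_cases hg00 : g0 = 0
    · refine ⟨1, one_ne_zero, fun v hv => ?_⟩
      have h2 := h1 v hv
      rw [hg00, zero_div, zero_sub, Valuation.map_neg, map_one] at h2
      exact absurd h2 (not_lt.2 (v16_le v))
    · refine ⟨g0, hg00, fun v hv => ?_⟩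
      have hx0 := (hx v hv).1
      have e : D / D0 * g0 ^ 2 = (D / D0 * x v ^ 2) * (g0 / x v * (g0 / x v)) := by
        field_simp
      rw [e]
      exact near_mul (v16_le v) (hx v hv).2 (near_mul (v16_le v) (h1 v hv) (h1 v hv))
  -- the number `s₁`
  choose! π hπ using hpi
  obtain ⟨T, hT⟩ : ∃ T : Finset (HeightOneSpectrum (𝓞 F)), ∀ v, v ∈ T ↔
      (¬ Sm y v ∧ (∀ i, q i ≠ v)) ∧ ¬ (4 : ℤ) ∣ log (v.valuation F D) := by
    have h1 : {v : HeightOneSpectrum (𝓞 F) | (¬ Sm y v ∧ (∀ i, q i ≠ v)) ∧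
        ¬ (4 : ℤ) ∣ log (v.valuation F D)}.Finite := by
      refine (Pool.Agent.Q162.LK.fin_val hD).subset ?_
      intro v hv h2
      apply hv.2
      rw [h2, log_one]
      exact dvd_zero _
    exact ⟨h1.toFinset, fun v => h1.mem_toFinset⟩
  obtain ⟨s1, hs1⟩ : ∃ s1 : F, s1 = ∏ v ∈ T, π v := ⟨_, rfl⟩
  have hπ0 : ∀ v ∈ T, π v ≠ 0 := fun v hv => (hπ v ((hT v).1 hv).1.1).1
  have hs10 : s1 ≠ 0 := by
    rw [hs1]
    exact Finset.prod_ne_zero_iff.2 hπ0
  have hvs1 : ∀ w : HeightOneSpectrum (𝓞 F), ¬ Sm y w → vl 2 w s1 = if w ∈ T then 1 else 0 := by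
    intro w hw
    rw [hs1, Pool.Agent.Q14.LK.vl_prod hBAS w T π hπ0]
    by_cases hwT : w ∈ T
    · rw [if_pos hwT, Finset.sum_eq_single w]
      · exact (hπ w hw).2.1
      · intro v hv hne
        exact (hπ v ((hT v).1 hv).1.1).2.2 w hw hne.symm
      · intro h
        exact absurd hwT h
    · rw [if_neg hwT]
      refine Finset.sum_eq_zero fun v hv => ?_
      refine (hπ v ((hT v).1 hv).1.1).2.2 w hw ?_
      rintro rfl
      exact hwT hv
  -- the number `s`
  obtain ⟨z, hz, hz1, hz2⟩ := hSpn (g / s1) (div_ne_zero hg hs10)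
  refine ⟨s1 * z, mul_ne_zero hs10 hz, ?_⟩
  have hs0 : s1 * z ≠ 0 := mul_ne_zero hs10 hz
  have hvm : ∀ (v : HeightOneSpectrum (𝓞 F)) (a b : F), a ≠ 0 → b ≠ 0 → vl 2 v (a * b) = vl 2 v a + vl 2 v b :=
    fun v a b ha hb => Pool.Agent.Q14.LK.vl_mul hBAS v ha hb
  refine ⟨mul_ne_zero hD (pow_ne_zero 2 hs0), ?_, ?_, ?_⟩
  · intro v hv hqv
    have h1 : vl 2 v D = 0 := by
      rw [hF.ram v hv]
      exact Finset.sum_eq_zero fun i _ => if_neg (hqv i)
    have h2 : vl 2 v (s1 * z) = if v ∈ T then 1 else 0 := by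
      rw [hvm v s1 z hs10 hz, hvs1 v hv, hz1 v hv hqv, add_zero]
    have h3 : (2 : ℤ) ∣ log (v.valuation F D) := (vl_zero_iff v 2 D).1 h1
    have h4 : log (v.valuation F (D * (s1 * z) ^ 2)) =
        log (v.valuation F D) + 2 * log (v.valuation F (s1 * z)) := by
      rw [map_mul, map_pow, log_mul (val_ne v hD) (pow_ne_zero 2 (val_ne v hs0)), log_pow]
      simp only [nsmul_eq_mul]
      push_cast
      ring
    have h5 : (4 : ℤ) ∣ log (v.valuation F (D * (s1 * z) ^ 2)) := by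
      rw [h4]
      by_cases hvT : v ∈ T
      · rw [if_pos hvT] at h2
        have h6 : ¬ (2 : ℤ) ∣ log (v.valuation F (s1 * z)) := by
          intro h7
          have h8 := (vl_zero_iff v 2 (s1 * z)).2 h7
          rw [h2] at h8
          exact one_ne_zero h8
        have h9 := ((hT v).1 hvT).2
        omega
      · rw [if_neg hvT] at h2
        have h6 : (2 : ℤ) ∣ log (v.valuation F (s1 * z)) := (vl_zero_iff v 2 (s1 * z)).1 h2
        have h9 : (4 : ℤ) ∣ log (v.valuation F D) := by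
          by_contra hc
          exact hvT ((hT v).2 ⟨⟨hv, hqv⟩, hc⟩)
        omega
    obtain ⟨j, hj⟩ := h5
    obtain ⟨ϖ, hϖ⟩ := v.valuation_exists_uniformizer F
    refine ⟨ϖ ^ j, ?_⟩
    have h6 : v.valuation F (D * (s1 * z) ^ 2) = exp (4 * j) := by
      rw [← hj, exp_log (val_ne v (mul_ne_zero hD (pow_ne_zero 2 hs0)))]
    rw [map_mul, h6, map_pow, map_zpow₀, hϖ, ← exp_zsmul, ← exp_nsmul, ← exp_add, ← exp_zero]
    congr 1
    simp only [smul_eq_mul, nsmul_eq_mul]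
    push_cast
    ring
  · intro i
    rw [pow_two, hvm _ _ _ hD (mul_ne_zero hs0 hs0), hvm _ _ _ hs0 hs0, hF.ram _ (hqS i)]
    have h1 : ∀ a : ZMod 2, a + a = 0 := by decide
    rw [h1, add_zero, Finset.sum_eq_single i]
    · rw [if_pos rfl]
    · intro j _ hj
      rw [if_neg (fun h => hj (hq h))]
    · intro h
      exact absurd (Finset.mem_univ i) h
  · intro v hv
    have h1 : D * (s1 * z) ^ 2 / D0 = (D / D0 * g ^ 2) * (z / (g / s1)) ^ 2 := by
      field_simp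
    rw [h1]
    exact Pool.Agent.Q277.LK.p2 v 4 (lpw4_near hBAS (hgv v hv)) (lpw_sq (hz2 v hv))

end

end Pool.Agent.Q150.EN
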